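import Pool.Agent.U585.SI.Nil
import Pool.Agent.U585.SI.Ent

/-!
# Polynomial sequences in the nilmanifolds of unitriangular matrices
-/

set_option autoImplicit false
set_option linter.unusedSectionVars false

open Filter Topology

namespace Pool.Agent.U585.SI

variable {m q : ℕ}

lemma Uni.mul {A B : Matrix (Fin m) (Fin m) ℝ} (hA : Uni A) (hB : Uni B) : Uni (A * B) := by
  classical
  constructor
  · intro i
    rw [Matrix.mul_apply, Finset.sum_eq_single i]
    · rw [hA.1, hB.1, one_mul]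
    · intro k _ hk
      rcases lt_or_gt_of_ne hk with h | h
      · rw [hA.2 i k h, zero_mul]
      · rw [hB.2 k i h, mul_zero]
    · intro h
      exact absurd (Finset.mem_univ i) h
  · intro i j hij
    rw [Matrix.mul_apply]
    refine Finset.sum_eq_zero fun k _ => ?_
    rcases lt_or_ge k i with h | h
    · rw [hA.2 i k h, zero_mul]
    · rw [hB.2 k j (lt_of_lt_of_le hij h), mul_zero]

lemma uni_one : Uni (1 : Matrix (Fin m) (Fin m) ℝ) :=
  ⟨fun i => Matrix.one_apply_eq i, fun _ _ h => Matrix.one_apply_ne (ne_of_gt h)⟩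

/-- continuous functions on `U_m(ℝ)/Γ_q` -/
def NilFun (m q : ℕ) (F : Matrix (Fin m) (Fin m) ℝ → ℂ) : Prop :=
  ContinuousOn F {A | Uni A} ∧ ∀ A γ, Uni A → Lat q γ → F (A * γ) = F A

/-- polynomial sequences -/
def PolySeq (m D : ℕ) (A : ℕ → Matrix (Fin m) (Fin m) ℝ) : Prop :=
  (∀ n, Uni (A n)) ∧ ∀ i j, PF D (fun n => A n i j)

/-- a compact set of matrices -/
def Kb (m : ℕ) (b : ℝ) : Set (Fin m → Fin m → ℝ) :=
  {A | Uni (Matrix.of A)} ∩ {A | ∀ i j, |A i j| ≤ b}

lemma Kb_compact (m : ℕ) (b : ℝ) : IsCompact (Kb m b) := by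
  have h1 : IsClosed {A : Fin m → Fin m → ℝ | Uni (Matrix.of A)} := by
    have e : {A : Fin m → Fin m → ℝ | Uni (Matrix.of A)} =
        (⋂ i, {A | A i i = 1}) ∩ ⋂ i, ⋂ j, {A | j < i → A i j = 0} := by
      ext A
      simp only [Uni, Matrix.of_apply, Set.mem_ofPred_eq, Set.mem_inter_iff, Set.mem_iInter]
    rw [e]
    refine IsClosed.inter (isClosed_iInter fun i => isClosed_eq (by fun_prop) continuous_const)
      (isClosed_iInter fun i => isClosed_iInter fun j => ?_)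
    by_cases h : j < i
    · simp only [h, true_imp_iff]
      exact isClosed_eq (by fun_prop) continuous_const
    · simp only [h, false_imp_iff, Set.ofPred_true]
      exact isClosed_univ
  have h2 : IsCompact (Set.pi Set.univ fun _ : Fin m => Set.pi Set.univ fun _ : Fin m =>
      Set.Icc (-b) b) := isCompact_univ_pi fun _ => isCompact_univ_pi fun _ => isCompact_Icc
  refine (h2.inter_left h1).of_isClosed_subset ?_ ?_
  · refine IsClosed.inter h1 ?_
    have e : {A : Fin m → Fin m → ℝ | ∀ i j, |A i j| ≤ b} = ⋂ i, ⋂ j, {A | |A i j| ≤ b} := by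
      ext A
      simp only [Set.mem_ofPred_eq, Set.mem_iInter]
    rw [e]
    exact isClosed_iInter fun i => isClosed_iInter fun j =>
      isClosed_le (by fun_prop) continuous_const
  · rintro A ⟨h3, h4⟩
    refine ⟨h3, fun i _ j _ => ?_⟩
    exact abs_le.1 (h4 i j)

lemma cont_Kb {F : Matrix (Fin m) (Fin m) ℝ → ℂ} (hF : NilFun m q F) (b : ℝ) :
    ContinuousOn (fun A : Fin m → Fin m → ℝ => F (Matrix.of A)) (Kb m b) := by
  refine hF.1.comp (t := {A | Uni A}) (f := fun A : Fin m → Fin m → ℝ => Matrix.of A) ?_ ?_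
  · exact (continuous_id (X := Fin m → Fin m → ℝ)).continuousOn
  · rintro A ⟨h, _⟩
    exact h

/-- every matrix may be moved to the compact set -/
lemma to_Kb (hq : 1 ≤ q) {B : Matrix (Fin m) (Fin m) ℝ} (hB : Uni B) :
    ∃ A : Fin m → Fin m → ℝ, A ∈ Kb m (q + 1) ∧ ∀ F, NilFun m q F → F B = F (Matrix.of A) := by
  have hb : ∃ β : ℝ, 0 ≤ β ∧ ∀ i j, |B i j| ≤ β := by
    refine ⟨∑ i, ∑ j, |B i j|, by positivity, fun i j => ?_⟩
    calc |B i j| ≤ ∑ j, |B i j| :=
          Finset.single_le_sum (f := fun j => |B i j|) (fun _ _ => abs_nonneg _) (Finset.mem_univ j)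
      _ ≤ _ := Finset.single_le_sum (f := fun i => ∑ j, |B i j|)
          (fun _ _ => Finset.sum_nonneg fun _ _ => abs_nonneg _) (Finset.mem_univ i)
  obtain ⟨β, hβ0, hβ⟩ := hb
  obtain ⟨γ, h1, h2, h3, h4⟩ := reduce_static hq B hB hβ0 hβ
  refine ⟨fun i j => (B * γ) i j, ⟨h3, fun i j => ?_⟩, fun F hF => ?_⟩
  · change |(B * γ) i j| ≤ (q : ℝ) + 1
    rcases lt_trichotomy i j with h | h | h
    · have := h4 i j h
      rw [abs_of_nonneg this.1]
      linarith
    · subst h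
      rw [h3.1, abs_one]
      have : (0 : ℝ) ≤ q := by positivity
      linarith
    · rw [h3.2 i j h, abs_zero]
      positivity
  · exact (hF.2 B γ hB h1).symm

lemma NilFun.bdd (hq : 1 ≤ q) {F : Matrix (Fin m) (Fin m) ℝ → ℂ} (hF : NilFun m q F) :
    ∃ M : ℝ, 0 < M ∧ ∀ B, Uni B → ‖F B‖ ≤ M := by
  obtain ⟨C, hC⟩ := (Kb_compact m (q + 1)).exists_bound_of_continuousOn (cont_Kb hF (q + 1))
  refine ⟨max C 1, lt_of_lt_of_le one_pos (le_max_right _ _), fun B hB => ?_⟩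
  obtain ⟨A, h1, h2⟩ := to_Kb hq hB
  rw [h2 F hF]
  exact (hC A h1).trans (le_max_left _ _)

lemma unif (hq : 1 ≤ q) {F : Matrix (Fin m) (Fin m) ℝ → ℂ} (hF : NilFun m q F) {η : ℝ}
    (hη : 0 < η) : ∃ ρ : ℝ, 0 < ρ ∧ ∀ (B B' : Matrix (Fin m) (Fin m) ℝ) (β d : ℝ), Uni B → Uni B' →
      0 ≤ β → (∀ i j, |B i j| ≤ β) → (∀ i j, |B' i j - B i j| ≤ d) →
      m * d * (m * β + q + 1) ^ m ≤ ρ → ‖F B' - F B‖ ≤ η := by
  classical
  have huc := (Kb_compact m (q + 2)).uniformContinuousOn_of_continuous (cont_Kb hF (q + 2))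
  rw [Metric.uniformContinuousOn_iff] at huc
  obtain ⟨δ, hδ, h⟩ := huc η hη
  refine ⟨min (δ / 2) 1, by positivity, fun B B' β d hB hB' hβ0 hβ hd hρ => ?_⟩
  obtain ⟨γ, h1, h2, h3, h4⟩ := reduce_static hq B hB hβ0 hβ
  have hUB' : Uni (B' * γ) := hB'.mul h1.1
  have hdiff : ∀ i j, |(B' * γ) i j - (B * γ) i j| ≤ min (δ / 2) 1 := by
    intro i j
    refine le_trans ?_ hρ
    rw [Matrix.mul_apply, Matrix.mul_apply, ← Finset.sum_sub_distrib]
    refine (Finset.abs_sum_le_sum_abs _ _).trans ?_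
    calc ∑ k, |B' i k * γ k j - B i k * γ k j| ≤ ∑ _k : Fin m, d * (m * β + q + 1) ^ m := by
          refine Finset.sum_le_sum fun k _ => ?_
          rw [← sub_mul, abs_mul]
          exact mul_le_mul (hd i k) (h2 k j) (abs_nonneg _) ((abs_nonneg _).trans (hd i k))
      _ = _ := by
          rw [Finset.sum_const, nsmul_eq_mul, Finset.card_univ, Fintype.card_fin]
          ring
  have hbd : ∀ i j, |(B * γ) i j| ≤ q + 1 := by
    intro i j
    rcases lt_trichotomy i j with h | h | h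
    · have := h4 i j h
      rw [abs_of_nonneg this.1]
      linarith
    · subst h
      rw [h3.1, abs_one]
      have : (0 : ℝ) ≤ q := by positivity
      linarith
    · rw [h3.2 i j h, abs_zero]
      positivity
  have hm1 : (fun i j => (B * γ) i j) ∈ Kb m (q + 2) :=
    ⟨h3, fun i j => (hbd i j).trans (by linarith)⟩
  have hm2 : (fun i j => (B' * γ) i j) ∈ Kb m (q + 2) := by
    refine ⟨hUB', fun i j => ?_⟩
    have h5 := hbd i j
    have h6 := (hdiff i j).trans (min_le_right _ _)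
    have h7 : |(B' * γ) i j| ≤ |(B' * γ) i j - (B * γ) i j| + |(B * γ) i j| := by
      have := abs_add_le ((B' * γ) i j - (B * γ) i j) ((B * γ) i j)
      simpa using this
    linarith
  have hdist : dist (fun i j => (B' * γ) i j) (fun i j => (B * γ) i j) < δ := by
    refine lt_of_le_of_lt ?_ (show δ / 2 < δ by linarith)
    rw [dist_pi_le_iff (by positivity)]
    intro i
    rw [dist_pi_le_iff (by positivity)]
    intro j
    rw [Real.dist_eq]
    exact (hdiff i j).trans (min_le_left _ _)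
  have h8 := h _ hm2 _ hm1 hdist
  rw [dist_eq_norm] at h8
  have e1 : F B' = F (B' * γ) := (hF.2 B' γ hB' h1).symm
  have e2 : F B = F (B * γ) := (hF.2 B γ hB h1).symm
  rw [e1, e2]
  exact h8.le

/-! ### the covering -/

lemma choose_le_H {n k E H : ℕ} (hn : n < H) (hk : k ≤ E) : (n.choose k : ℝ) ≤ (H : ℝ) ^ E := by
  have h1 : n.choose k ≤ n ^ k := Nat.choose_le_pow n k
  have h2 : n ^ k ≤ H ^ k := Nat.pow_le_pow_left hn.le k
  have h3 : H ^ k ≤ H ^ E := Nat.pow_le_pow_right (by omega) hk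
  exact_mod_cast h1.trans (h2.trans h3)

lemma Bm_bound {E H : ℕ} {r : Fin m → Fin m → ℕ → ℝ} (hr : ∀ i j k, 0 ≤ r i j k ∧ r i j k ≤ q)
    {n : ℕ} (hn : n < H) (i j : Fin m) : |Bm E r n i j| ≤ 1 + (E + 1) * q * (H : ℝ) ^ E := by
  have hpos : 0 ≤ ((E : ℝ) + 1) * q * (H : ℝ) ^ E := by positivity
  unfold Bm
  simp only [Matrix.of_apply]
  split_ifs with h1 h2
  · rw [abs_one]; linarith
  · rw [abs_zero]; linarith
  · refine (Finset.abs_sum_le_sum_abs _ _).trans ?_
    calc ∑ k ∈ Finset.range (E + 1), |(n.choose k : ℝ) * r i j k|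
        ≤ ∑ _k ∈ Finset.range (E + 1), (H : ℝ) ^ E * q := by
          refine Finset.sum_le_sum fun k hk => ?_
          rw [Finset.mem_range] at hk
          rw [abs_mul, abs_of_nonneg (by positivity), abs_of_nonneg (hr i j k).1]
          exact mul_le_mul (choose_le_H hn (by omega)) (hr i j k).2 (hr i j k).1 (by positivity)
      _ = (E + 1) * q * (H : ℝ) ^ E := by
          rw [Finset.sum_const, nsmul_eq_mul, Finset.card_range]
          push_cast
          ring
      _ ≤ _ := by linarith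

lemma Bm_diff {E H : ℕ} {r r' : Fin m → Fin m → ℕ → ℝ} {t : ℝ}
    (hr : ∀ i j k, k ≤ E → |r' i j k - r i j k| ≤ t) {n : ℕ} (hn : n < H) (i j : Fin m) (ht : 0 ≤ t) :
    |Bm E r' n i j - Bm E r n i j| ≤ (E + 1) * t * (H : ℝ) ^ E := by
  have hpos : 0 ≤ ((E : ℝ) + 1) * t * (H : ℝ) ^ E := by positivity
  unfold Bm
  simp only [Matrix.of_apply]
  split_ifs with h1 h2
  · rw [sub_self, abs_zero]; exact hpos
  · rw [sub_self, abs_zero]; exact hpos
  · rw [← Finset.sum_sub_distrib]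
    refine (Finset.abs_sum_le_sum_abs _ _).trans ?_
    calc ∑ k ∈ Finset.range (E + 1), |(n.choose k : ℝ) * r' i j k - (n.choose k : ℝ) * r i j k|
        ≤ ∑ _k ∈ Finset.range (E + 1), (H : ℝ) ^ E * t := by
          refine Finset.sum_le_sum fun k hk => ?_
          rw [Finset.mem_range] at hk
          rw [← mul_sub, abs_mul, abs_of_nonneg (by positivity : (0 : ℝ) ≤ (n.choose k : ℝ))]
          exact mul_le_mul (choose_le_H hn (by omega)) (hr i j k (by omega)) (abs_nonneg _)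
            (by positivity)
      _ = _ := by
          rw [Finset.sum_const, nsmul_eq_mul, Finset.card_range]
          push_cast
          ring

/-- the grid -/
noncomputable def rg (m q E T : ℕ) (a : Fin m → Fin m → Fin (E + 1) → Fin (T + 1)) :
    Fin m → Fin m → ℕ → ℝ := fun i j k =>
  if h : k < E + 1 then (q : ℝ) * (a i j ⟨k, h⟩ : ℕ) / T else 0

lemma grid_approx {E T : ℕ} (hT : 1 ≤ T) (hq : 1 ≤ q) {r : Fin m → Fin m → ℕ → ℝ}
    (hr : ∀ i j k, 0 ≤ r i j k ∧ r i j k ≤ q) :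
    ∃ a : Fin m → Fin m → Fin (E + 1) → Fin (T + 1), ∀ i j k, k ≤ E →
      |rg m q E T a i j k - r i j k| ≤ q / T := by
  have hT0 : (0 : ℝ) < T := by exact_mod_cast hT
  have hq0 : (0 : ℝ) < q := by exact_mod_cast hq
  have hlt : ∀ i j k, ⌊r i j k * T / q⌋₊ < T + 1 := by
    intro i j k
    have h1 : r i j k * T / q ≤ T := by
      rw [div_le_iff₀ hq0]
      have := mul_le_mul_of_nonneg_right (hr i j k).2 hT0.le
      linarith
    have h2 := Nat.floor_le_floor h1
    rw [Nat.floor_natCast] at h2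
    omega
  refine ⟨fun i j k => ⟨⌊r i j k * T / q⌋₊, hlt i j k⟩, fun i j k hk => ?_⟩
  unfold rg
  rw [dif_pos (by omega)]
  simp only
  have h0 : 0 ≤ r i j k * T / q := by
    have := (hr i j k).1
    positivity
  have h1 := Nat.floor_le h0
  have h2 := (Nat.lt_floor_add_one (r i j k * T / q)).le
  rw [le_div_iff₀ hq0] at h1
  rw [div_le_iff₀ hq0] at h2
  rw [abs_le]
  constructor
  · have h3 : r i j k ≤ ((⌊r i j k * T / q⌋₊ : ℝ) + 1) * q / T := by
      rw [le_div_iff₀ hT0]; exact h2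
    have h4 : ((⌊r i j k * T / q⌋₊ : ℝ) + 1) * q / T =
        (q : ℝ) * (⌊r i j k * T / q⌋₊ : ℝ) / T + q / T := by ring
    linarith
  · have h3 : (⌊r i j k * T / q⌋₊ : ℝ) * q / T ≤ r i j k := by
      rw [div_le_iff₀ hT0]; exact h1
    have h4 : (⌊r i j k * T / q⌋₊ : ℝ) * q / T = (q : ℝ) * (⌊r i j k * T / q⌋₊ : ℝ) / T := by ring
    have h5 : (0 : ℝ) ≤ q / T := by positivity
    linarith

lemma poly_cond (m q E : ℕ) {ρ : ℝ} (hρ : 0 < ρ) : ∀ᶠ H : ℕ in atTop,
    (m : ℝ) * ((E + 1) * ((q : ℝ) / ((H ^ (E + (E + 1) * m + 1) : ℕ) : ℝ)) * (H : ℝ) ^ E) *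
      (m * (1 + (E + 1) * q * (H : ℝ) ^ E) + q + 1) ^ m ≤ ρ := by
  obtain ⟨H₁, hH₁⟩ := exists_nat_ge ((m : ℝ) * (E + 1) * q / ρ)
  obtain ⟨H₂, hH₂⟩ := exists_nat_ge ((m : ℝ) * (1 + (E + 1) * q) + q + 1)
  filter_upwards [eventually_ge_atTop (max (max H₁ H₂) 1)] with H hH
  have hH1 : (1 : ℝ) ≤ H := by exact_mod_cast (by omega : 1 ≤ H)
  have hH0 : (0 : ℝ) < H := by linarith
  have h1 : (m : ℝ) * (E + 1) * q ≤ ρ * H := by
    have : (H₁ : ℝ) ≤ H := by exact_mod_cast (by omega : H₁ ≤ H)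
    rw [div_le_iff₀ hρ] at hH₁
    nlinarith
  have h2 : (m : ℝ) * (1 + (E + 1) * q) + q + 1 ≤ H := by
    have : (H₂ : ℝ) ≤ H := by exact_mod_cast (by omega : H₂ ≤ H)
    linarith
  have hE1 : (1 : ℝ) ≤ (H : ℝ) ^ E := one_le_pow₀ hH1
  have h3 : (m : ℝ) * (1 + (E + 1) * q * (H : ℝ) ^ E) + q + 1 ≤ (H : ℝ) ^ (E + 1) := by
    calc (m : ℝ) * (1 + (E + 1) * q * (H : ℝ) ^ E) + q + 1
        ≤ (m * (1 + (E + 1) * q) + q + 1) * (H : ℝ) ^ E := by
          have h4 : (m : ℝ) ≤ m * (H : ℝ) ^ E := le_mul_of_one_le_right (by positivity) hE1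
          have h5 : (q : ℝ) ≤ q * (H : ℝ) ^ E := le_mul_of_one_le_right (by positivity) hE1
          nlinarith
      _ ≤ H * (H : ℝ) ^ E := mul_le_mul_of_nonneg_right h2 (by positivity)
      _ = _ := by ring
  have h4 : (m * (1 + (E + 1) * q * (H : ℝ) ^ E) + q + 1) ^ m ≤ (H : ℝ) ^ ((E + 1) * m) := by
    rw [pow_mul]
    exact pow_le_pow_left₀ (by positivity) h3 m
  have hpow : ((H ^ (E + (E + 1) * m + 1) : ℕ) : ℝ) = (H : ℝ) ^ E * (H : ℝ) ^ ((E + 1) * m) * H := by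
    push_cast
    ring
  rw [hpow]
  have e1 : (m : ℝ) * ((E + 1) * ((q : ℝ) / ((H : ℝ) ^ E * (H : ℝ) ^ ((E + 1) * m) * H)) *
      (H : ℝ) ^ E) = (m * (E + 1) * q) / ((H : ℝ) ^ ((E + 1) * m) * H) := by
    field_simp
  rw [e1, div_mul_eq_mul_div, div_le_iff₀ (by positivity)]
  calc (m : ℝ) * (E + 1) * q * (m * (1 + (E + 1) * q * (H : ℝ) ^ E) + q + 1) ^ m
      ≤ (ρ * H) * (H : ℝ) ^ ((E + 1) * m) := mul_le_mul h1 h4 (by positivity) (by positivity)
    _ = _ := by ring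

lemma card_cond (κ c : ℕ) {δ : ℝ} (hδ : 0 < δ) : ∀ᶠ H : ℕ in atTop,
    (((H ^ κ + 1) ^ c : ℕ) : ℝ) ≤ Real.exp (δ * H) := by
  have h1 := (isLittleO_pow_exp_pos_mul_atTop (k := (κ + 1) * c) hδ).bound (c := 1) one_pos
  have h2 := tendsto_natCast_atTop_atTop.eventually h1
  filter_upwards [h2, eventually_ge_atTop 2] with H h2 hH
  rw [one_mul, Real.norm_eq_abs, Real.norm_eq_abs, abs_of_nonneg (by positivity),
    abs_of_nonneg (by positivity)] at h2
  refine le_trans ?_ h2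
  have h3 : H ^ κ + 1 ≤ H ^ (κ + 1) := by
    have h4 : 1 ≤ H ^ κ := Nat.one_le_pow _ _ (by omega)
    calc H ^ κ + 1 ≤ 2 * H ^ κ := by omega
      _ ≤ H * H ^ κ := Nat.mul_le_mul_right _ hH
      _ = _ := by ring
  have h4 : (H ^ κ + 1) ^ c ≤ H ^ ((κ + 1) * c) := by
    rw [pow_mul]
    exact Nat.pow_le_pow_left h3 c
  exact_mod_cast h4

lemma PF.shift {E : ℕ} {p : ℕ → ℝ} (h : PF E p) : PF E (fun n => p (n + 1)) := by
  obtain ⟨Q, h1, h2⟩ := h
  refine ⟨Q.comp (Polynomial.X + Polynomial.C 1), ?_, fun n => ?_⟩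
  · rw [Polynomial.natDegree_comp, Polynomial.natDegree_X_add_C, mul_one]
    exact h1
  · simp only [Polynomial.eval_comp, Polynomial.eval_add, Polynomial.eval_X, Polynomial.eval_C, h2]
    push_cast
    rfl

lemma PolySeq.shift {D : ℕ} {A : ℕ → Matrix (Fin m) (Fin m) ℝ} (h : PolySeq m D A) :
    PolySeq m D (fun n => A (n + 1)) :=
  ⟨fun n => h.1 (n + 1), fun i j => (h.2 i j).shift⟩

/-- the families are tame -/
theorem tame_nil (D : ℕ) (hq : 1 ≤ q) {F : Matrix (Fin m) (Fin m) ℝ → ℂ} (hF : NilFun m q F)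
    {M : ℝ} (hM : 0 < M) (hFM : ∀ B, Uni B → ‖F B‖ ≤ M) :
    Tame (fam (fun (z : {A : ℕ → Matrix (Fin m) (Fin m) ℝ // PolySeq m D A}) n => F (z.1 n)) M) := by
  classical
  have hM' : ‖(M : ℂ)‖ = M := by rw [Complex.norm_real, Real.norm_eq_abs, abs_of_pos hM]
  have hbd : ∀ B, Uni B → ‖F B / (M : ℂ)‖ ≤ 1 := by
    intro B hB
    rw [norm_div, hM', div_le_one hM]
    exact hFM B hB
  refine ⟨?_, ?_, ?_⟩
  · rintro v ⟨z, rfl⟩ n
    exact hbd _ (z.2.1 n)
  · rintro v ⟨z, rfl⟩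
    exact ⟨⟨fun n => z.1 (n + 1), z.2.shift⟩, rfl⟩
  · intro δ hδ
    obtain ⟨ρ, hρ, hun⟩ := unif hq hF (show 0 < δ * M by positivity)
    set E := m * D with hE
    set κ := E + (E + 1) * m + 1 with hκ
    obtain ⟨k₀, hk₀⟩ := eventually_atTop.1 ((poly_cond m q E hρ).and
      ((card_cond κ ((E + 1) * m * m) hδ).and (eventually_ge_atTop 1)))
    refine ⟨k₀, fun H hH => ?_⟩
    obtain ⟨hc1, hc2, hc3⟩ := hk₀ H hH
    set T := H ^ κ with hT
    have hT1 : 1 ≤ T := Nat.one_le_pow _ _ hc3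
    refine ⟨(Finset.univ : Finset (Fin m → Fin m → Fin (E + 1) → Fin (T + 1))).image
      fun a n => F (Bm E (rg m q E T a) n) / (M : ℂ), ?_, ?_, ?_⟩
    · refine le_trans ?_ hc2
      have h1 : ((Finset.univ : Finset (Fin m → Fin m → Fin (E + 1) → Fin (T + 1))).image
          fun a n => F (Bm E (rg m q E T a) n) / (M : ℂ)).card ≤ (T + 1) ^ ((E + 1) * m * m) := by
        refine Finset.card_image_le.trans (le_of_eq ?_)
        rw [Finset.card_univ]
        simp only [Fintype.card_pi, Fintype.card_fin, Finset.prod_const, Finset.card_univ]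
        rw [← pow_mul, ← pow_mul, mul_assoc]
      exact_mod_cast h1
    · intro w hw n
      obtain ⟨a, _, rfl⟩ := Finset.mem_image.1 hw
      exact hbd _ (Bm_uni _ _ _)
    · rintro v ⟨z, rfl⟩
      obtain ⟨r, hr1, hr2⟩ := reduce hq z.1 z.2.1 z.2.2
      obtain ⟨a, ha⟩ := grid_approx (E := E) hT1 hq hr1
      refine ⟨_, Finset.mem_image_of_mem _ (Finset.mem_univ a), fun n hn => ?_⟩
      simp only
      rw [← sub_div, norm_div, hM', div_le_iff₀ hM]
      obtain ⟨γ, hγ, hAγ⟩ := hr2 n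
      have e1 : F (z.1 n) = F (Bm E r n) := by
        rw [← hF.2 (z.1 n) γ (z.2.1 n) hγ, hAγ]
      rw [e1, norm_sub_rev]
      refine hun (Bm E r n) (Bm E (rg m q E T a) n) (1 + (E + 1) * q * (H : ℝ) ^ E)
        ((E + 1) * ((q : ℝ) / (T : ℝ)) * (H : ℝ) ^ E) (Bm_uni _ _ _) (Bm_uni _ _ _)
        (by positivity) (fun i j => Bm_bound hr1 hn i j) (fun i j => ?_) ?_
      · exact Bm_diff (fun i j k hk => ha i j k hk) hn i j (by positivity)
      · exact hc1

/-- the functions on the nilmanifold -/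
theorem good_nil (m q D : ℕ) (hq : 1 ≤ q) :
    Good {G : {A : ℕ → Matrix (Fin m) (Fin m) ℝ // PolySeq m D A} → ℕ → ℂ |
      ∃ F, NilFun m q F ∧ ∀ z n, G z n = F (z.1 n)} := by
  classical
  have : CompactSpace (Kb m (q + 1)) := isCompact_iff_compactSpace.1 (Kb_compact m (q + 1))
  set S : Set C(Kb m (q + 1), ℂ) := {φ | ∃ F, NilFun m q F ∧ ∀ A : Kb m (q + 1),
    φ A = F (Matrix.of A.1)} with hS
  have hzero : NilFun m q (fun _ => 0) := ⟨continuousOn_const, fun _ _ _ _ => rfl⟩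
  have : Nonempty S := ⟨⟨0, fun _ => 0, hzero, fun _ => rfl⟩⟩
  have hspec := fun i : ℕ => (TopologicalSpace.denseSeq S i).2
  choose F hF hFe using hspec
  refine ⟨⟨fun i z n => F i (z.1 n), fun i => ?_, ?_⟩⟩
  · obtain ⟨M, hM, hFM⟩ := (hF i).bdd hq
    exact ⟨M, hM, tame_nil D hq (hF i) hM hFM⟩
  · rintro G ⟨F', hF', hG⟩ δ hδ
    have hcont : Continuous fun A : Kb m (q + 1) => F' (Matrix.of A.1) := by
      have := cont_Kb hF' (q + 1)
      exact continuousOn_iff_continuous_domRestrict.1 this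
    set φ : C(Kb m (q + 1), ℂ) := ⟨fun A => F' (Matrix.of A.1), hcont⟩ with hφ
    have hφS : φ ∈ S := ⟨F', hF', fun _ => rfl⟩
    obtain ⟨i, hi⟩ := (TopologicalSpace.denseRange_denseSeq S).exists_dist_lt ⟨φ, hφS⟩ hδ
    refine ⟨i, fun z n => ?_⟩
    obtain ⟨A, hA, hAF⟩ := to_Kb hq (z.2.1 n)
    change ‖G z n - F i (z.1 n)‖ ≤ δ
    rw [hG, hAF F' hF', hAF (F i) (hF i), ← dist_eq_norm]
    have h1 : F' (Matrix.of A) = φ ⟨A, hA⟩ := rfl
    have h2 : F i (Matrix.of A) = (TopologicalSpace.denseSeq S i).1 ⟨A, hA⟩ := (hFe i ⟨A, hA⟩).symm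
    rw [h1, h2]
    exact (ContinuousMap.dist_apply_le_dist _).trans hi.le

/-! ### rotations -/

lemma nilp {N : Matrix (Fin m) (Fin m) ℝ} (hN : ∀ i j, j ≤ i → N i j = 0) (k : ℕ) :
    ∀ i j : Fin m, j.val < i.val + k → (N ^ k) i j = 0 := by
  classical
  induction k with
  | zero =>
    intro i j h
    rw [pow_zero]
    refine Matrix.one_apply_ne ?_
    intro h'
    rw [h'] at h
    omega
  | succ k ih =>
    intro i j h
    rw [pow_succ, Matrix.mul_apply]
    refine Finset.sum_eq_zero fun l _ => ?_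
    by_cases hl : l.val < i.val + k
    · rw [ih i l hl, zero_mul]
    · have : j ≤ l := by
        rw [Fin.le_def]
        omega
      rw [hN l j this, mul_zero]

/-- the orbits of the rotations are polynomial -/
theorem rotation_poly {g y : Matrix (Fin m) (Fin m) ℝ} (hg : Uni g) (hy : Uni y) :
    PolySeq m m (fun n => g ^ n * y) := by
  classical
  have hpow : ∀ n : ℕ, Uni (g ^ n) := by
    intro n
    induction n with
    | zero => rw [pow_zero]; exact uni_one
    | succ n ih => rw [pow_succ]; exact ih.mul hg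
  refine ⟨fun n => (hpow n).mul hy, fun i j => ?_⟩
  set N := g - 1 with hN
  have hN0 : ∀ i j, j ≤ i → N i j = 0 := by
    intro i j h
    rw [hN, Matrix.sub_apply]
    rcases eq_or_lt_of_le h with h | h
    · subst h
      rw [hg.1, Matrix.one_apply_eq, sub_self]
    · rw [hg.2 i j h, Matrix.one_apply_ne (ne_of_gt h), sub_self]
  have hNm : ∀ k, m ≤ k → N ^ k = 0 := by
    intro k hk
    ext i j
    rw [nilp hN0 k i j (by have := j.2; omega)]
    rfl
  have hbin : ∀ n : ℕ, (g ^ n * y) i j =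
      ∑ k ∈ Finset.range (m + 1), (n.choose k : ℝ) * (N ^ k * y) i j := by
    intro n
    have e1 : g = N + 1 := by rw [hN]; abel
    have e2 : g ^ n = ∑ k ∈ Finset.range (n + 1), (n.choose k : ℝ) • N ^ k := by
      rw [e1, (Commute.one_right N).add_pow]
      refine Finset.sum_congr rfl fun k _ => ?_
      rw [one_pow, mul_one, ← nsmul_eq_mul', ← Nat.cast_smul_eq_nsmul ℝ]
    rw [e2, Finset.sum_mul, Matrix.sum_apply]
    have e3 : ∀ k, ((n.choose k : ℝ) • N ^ k * y) i j = (n.choose k : ℝ) * (N ^ k * y) i j := by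
      intro k
      rw [Matrix.smul_mul, Matrix.smul_apply, smul_eq_mul]
    simp_rw [e3]
    refine range_swap (fun k => (N ^ k * y) i j) (fun k hk => ?_) n
    rw [hNm k hk.le]
    simp
  simp_rw [hbin]
  refine PF.sum _ fun k hk => ?_
  rw [Finset.mem_range] at hk
  have h2 := (PF.choose (E := m) (k := k) (by omega)).mul (PF.const 0 ((N ^ k * y) i j))
  simpa using h2

end Pool.Agent.U585.SI
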