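import Mathlib

/-!
# Polynomial sequences of unitriangular matrices: reduction modulo a lattice
-/

set_option autoImplicit false
set_option linter.unusedSectionVars false

namespace Pool.Agent.U585.SI

/-! ### polynomial functions -/

/-- restrictions of polynomials of degree at most `E` -/
def PF (E : ℕ) (p : ℕ → ℝ) : Prop :=
  ∃ P : Polynomial ℝ, P.natDegree ≤ E ∧ ∀ n : ℕ, p n = P.eval (n : ℝ)

lemma PF.mono {E E' : ℕ} {p : ℕ → ℝ} (h : PF E p) (hE : E ≤ E') : PF E' p := by
  obtain ⟨P, h1, h2⟩ := h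
  exact ⟨P, h1.trans hE, h2⟩

lemma PF.const (E : ℕ) (c : ℝ) : PF E (fun _ => c) :=
  ⟨Polynomial.C c, by simp, by simp⟩

lemma PF.add {E : ℕ} {p q : ℕ → ℝ} (hp : PF E p) (hq : PF E q) : PF E (fun n => p n + q n) := by
  obtain ⟨P, h1, h2⟩ := hp
  obtain ⟨Q, h3, h4⟩ := hq
  refine ⟨P + Q, (Polynomial.natDegree_add_le _ _).trans (max_le h1 h3), fun n => ?_⟩
  simp only [Polynomial.eval_add, h2, h4]

lemma PF.sum {E : ℕ} {ι : Type} (s : Finset ι) {p : ι → ℕ → ℝ} (hp : ∀ i ∈ s, PF E (p i)) :
    PF E (fun n => ∑ i ∈ s, p i n) := by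
  classical
  induction s using Finset.induction_on with
  | empty => simpa using PF.const E 0
  | insert a s ha ih =>
    have h1 := hp a (Finset.mem_insert_self a s)
    have h2 := ih fun i hi => hp i (Finset.mem_insert_of_mem hi)
    have := h1.add h2
    simp_rw [Finset.sum_insert ha]
    exact this

lemma PF.mul {E E' : ℕ} {p q : ℕ → ℝ} (hp : PF E p) (hq : PF E' q) :
    PF (E + E') (fun n => p n * q n) := by
  obtain ⟨P, h1, h2⟩ := hp
  obtain ⟨Q, h3, h4⟩ := hq
  refine ⟨P * Q, Polynomial.natDegree_mul_le.trans (add_le_add h1 h3), fun n => ?_⟩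
  simp only [Polynomial.eval_mul, h2, h4]

lemma PF.choose {E k : ℕ} (h : k ≤ E) : PF E (fun n => (n.choose k : ℝ)) := by
  refine ⟨Polynomial.C (1 / (k.factorial : ℝ)) * descPochhammer ℝ k, ?_, fun n => ?_⟩
  · refine Polynomial.natDegree_mul_le.trans ?_
    rw [Polynomial.natDegree_C, zero_add, descPochhammer_natDegree]
    exact h
  · rw [Polynomial.eval_mul, Polynomial.eval_C, descPochhammer_eval_eq_descFactorial,
      Nat.descFactorial_eq_factorial_mul_choose]
    have : (k.factorial : ℝ) ≠ 0 := by exact_mod_cast k.factorial_ne_zero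
    push_cast
    field_simp

/-- the coefficients of Newton's formula -/
noncomputable def dl (p : ℕ → ℝ) (k : ℕ) : ℝ := (fwdDiff 1)^[k] p 0

lemma newton (p : ℕ → ℝ) (n : ℕ) :
    p n = ∑ k ∈ Finset.range (n + 1), (n.choose k : ℝ) * dl p k := by
  have h := shift_eq_sum_fwdDiff_iter 1 p n 0
  simp only [smul_eq_mul, mul_one, zero_add] at h
  rw [h]
  refine Finset.sum_congr rfl fun k _ => ?_
  rw [nsmul_eq_mul]
  rfl

lemma dl_zero {E : ℕ} {p : ℕ → ℝ} (h : PF E p) {k : ℕ} (hk : E < k) : dl p k = 0 := by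
  obtain ⟨P, h1, h2⟩ := h
  have key : ∀ (k : ℕ) (f : ℝ → ℝ) (n : ℕ),
      (fwdDiff 1)^[k] (fun n : ℕ => f n) n = (fwdDiff 1)^[k] f (n : ℝ) := by
    intro k
    induction k with
    | zero => intro f n; rfl
    | succ k ih =>
      intro f n
      have e : (fwdDiff 1 fun n : ℕ => f n) = fun n : ℕ => (fwdDiff 1 f) n := by
        funext m
        unfold fwdDiff
        push_cast
        rfl
      rw [Function.iterate_succ_apply, Function.iterate_succ_apply, ← ih, e]
  have h3 : p = fun n : ℕ => P.eval (n : ℝ) := funext h2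
  unfold dl
  rw [h3, key k (fun x => P.eval x) 0]
  have h4 := Polynomial.fwdDiff_iter_eq_zero_of_degree_lt (P := P) (n := k) (by omega)
  exact congrFun h4 _

lemma range_swap {E : ℕ} (c : ℕ → ℝ) (hc : ∀ k, E < k → c k = 0) (n : ℕ) :
    ∑ k ∈ Finset.range (n + 1), (n.choose k : ℝ) * c k =
      ∑ k ∈ Finset.range (E + 1), (n.choose k : ℝ) * c k := by
  have h1 : ∑ k ∈ Finset.range (n + 1), (n.choose k : ℝ) * c k =
      ∑ k ∈ Finset.range (n + E + 1), (n.choose k : ℝ) * c k := by
    refine Finset.sum_subset (Finset.range_subset_range.2 (by omega)) fun k _ hk => ?_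
    rw [Finset.mem_range] at hk
    rw [Nat.choose_eq_zero_of_lt (by omega)]
    simp
  have h2 : ∑ k ∈ Finset.range (E + 1), (n.choose k : ℝ) * c k =
      ∑ k ∈ Finset.range (n + E + 1), (n.choose k : ℝ) * c k := by
    refine Finset.sum_subset (Finset.range_subset_range.2 (by omega)) fun k _ hk => ?_
    rw [Finset.mem_range] at hk
    rw [hc k (by omega), mul_zero]
  rw [h1, h2]

/-- the correction of a function modulo `q` -/
noncomputable def flp (q : ℕ) (p : ℕ → ℝ) : ℕ → ℝ := fun n =>
  ∑ k ∈ Finset.range (n + 1), (n.choose k : ℝ) * (-(q * ⌊dl p k / q⌋))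

lemma flp_int (q : ℕ) (p : ℕ → ℝ) (n : ℕ) : ∃ z : ℤ, flp q p n = q * z := by
  refine ⟨∑ k ∈ Finset.range (n + 1), (n.choose k : ℤ) * (-⌊dl p k / q⌋), ?_⟩
  unfold flp
  push_cast
  rw [Finset.mul_sum]
  exact Finset.sum_congr rfl fun k _ => by ring

lemma flp_PF {E q : ℕ} {p : ℕ → ℝ} (h : PF E p) : PF E (flp q p) := by
  have h1 : flp q p = fun n => ∑ k ∈ Finset.range (E + 1),
      (n.choose k : ℝ) * (-(q * ⌊dl p k / q⌋)) := by
    funext n
    unfold flp
    refine range_swap (fun k => -((q : ℝ) * ⌊dl p k / q⌋)) (fun k hk => ?_) n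
    rw [dl_zero h hk]
    simp
  rw [h1]
  refine PF.sum _ fun k hk => ?_
  rw [Finset.mem_range] at hk
  have h2 := (PF.choose (E := E) (k := k) (by omega)).mul (PF.const 0 (-((q : ℝ) * ⌊dl p k / q⌋)))
  simpa using h2

lemma flp_add {E q : ℕ} (hq : 1 ≤ q) {p : ℕ → ℝ} (h : PF E p) :
    ∃ r : ℕ → ℝ, (∀ k, 0 ≤ r k ∧ r k ≤ q) ∧
      ∀ n, p n + flp q p n = ∑ k ∈ Finset.range (E + 1), (n.choose k : ℝ) * r k := by
  have hq0 : (0 : ℝ) < q := by exact_mod_cast hq
  refine ⟨fun k => dl p k - q * ⌊dl p k / q⌋, fun k => ?_, fun n => ?_⟩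
  · have h1 := Int.floor_le (dl p k / q)
    have h2 := (Int.lt_floor_add_one (dl p k / q)).le
    rw [le_div_iff₀ hq0] at h1
    rw [div_le_iff₀ hq0] at h2
    constructor <;> nlinarith
  · rw [← range_swap (fun k => dl p k - q * ⌊dl p k / q⌋) (fun k hk => by
      rw [dl_zero h hk]; simp) n]
    conv_lhs => rw [newton p n]
    unfold flp
    rw [← Finset.sum_add_distrib]
    exact Finset.sum_congr rfl fun k _ => by ring

/-! ### the recursion -/

/-- the entries of the correcting matrix in the column `j` -/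
noncomputable def xs {R : Type} [CommRing R] {m : ℕ} (A : Fin m → Fin m → R) (fl : R → R)
    (j i : Fin m) : R :=
  if i = j then 1 else if j < i then 0 else
    fl (∑ k ∈ (Finset.Ioi i).attach, A i k.1 * xs A fl j k.1)
termination_by m - i.val
decreasing_by
  have h1 := Finset.mem_Ioi.1 k.2
  omega

section rec_facts

variable {R : Type} [CommRing R] {m : ℕ} (A : Fin m → Fin m → R) (fl : R → R)

lemma xs_self (j : Fin m) : xs A fl j j = 1 := by
  rw [xs, if_pos rfl]

lemma xs_gt {j i : Fin m} (h : j < i) : xs A fl j i = 0 := by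
  rw [xs, if_neg (ne_of_gt h), if_pos h]

/-- the sum in the recursion -/
noncomputable def ss (j i : Fin m) : R := ∑ k ∈ Finset.Ioi i, A i k * xs A fl j k

lemma xs_lt {j i : Fin m} (h : i < j) : xs A fl j i = fl (ss A fl j i) := by
  rw [xs, if_neg (ne_of_lt h), if_neg (not_lt.2 h.le)]
  unfold ss
  rw [← Finset.sum_attach (Finset.Ioi i) (fun k => A i k * xs A fl j k)]

lemma prod_xs (h1 : ∀ i, A i i = 1) (h0 : ∀ i k, k < i → A i k = 0) (j i : Fin m) :
    ∑ k, A i k * xs A fl j k = xs A fl j i + ss A fl j i := by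
  classical
  have e : (Finset.univ : Finset (Fin m)) = insert i (Finset.Iio i ∪ Finset.Ioi i) := by
    ext k
    simp only [Finset.mem_univ, Finset.mem_insert, Finset.mem_union, Finset.mem_Iio,
      Finset.mem_Ioi, true_iff]
    rcases lt_trichotomy k i with h | h | h
    · exact Or.inr (Or.inl h)
    · exact Or.inl h
    · exact Or.inr (Or.inr h)
  rw [e, Finset.sum_insert (by simp), Finset.sum_union (by
    rw [Finset.disjoint_left]
    intro k h2 h3
    rw [Finset.mem_Iio] at h2
    rw [Finset.mem_Ioi] at h3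
    exact absurd (h2.trans h3) (lt_irrefl _)), h1, one_mul]
  rw [Finset.sum_eq_zero (s := Finset.Iio i) fun k hk => by
    rw [h0 i k (Finset.mem_Iio.1 hk), zero_mul], zero_add]
  rfl

lemma prod_xs_gt (h1 : ∀ i, A i i = 1) (h0 : ∀ i k, k < i → A i k = 0) {j i : Fin m}
    (h : j < i) : ∑ k, A i k * xs A fl j k = 0 := by
  rw [prod_xs A fl h1 h0, xs_gt A fl h, zero_add]
  unfold ss
  refine Finset.sum_eq_zero fun k hk => ?_
  rw [xs_gt A fl (h.trans (Finset.mem_Ioi.1 hk)), mul_zero]

lemma prod_xs_self (h1 : ∀ i, A i i = 1) (h0 : ∀ i k, k < i → A i k = 0) (j : Fin m) :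
    ∑ k, A j k * xs A fl j k = 1 := by
  rw [prod_xs A fl h1 h0, xs_self]
  unfold ss
  rw [Finset.sum_eq_zero, add_zero]
  intro k hk
  rw [xs_gt A fl (Finset.mem_Ioi.1 hk), mul_zero]

end rec_facts

/-! ### matrices -/

/-- upper unitriangular matrices -/
def Uni {m : ℕ} (A : Matrix (Fin m) (Fin m) ℝ) : Prop := (∀ i, A i i = 1) ∧ ∀ i j, j < i → A i j = 0

/-- the lattice of the integer unitriangular matrices which are the identity modulo `q` -/
def Lat {m : ℕ} (q : ℕ) (A : Matrix (Fin m) (Fin m) ℝ) : Prop :=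
  Uni A ∧ ∀ i j, i < j → ∃ z : ℤ, A i j = q * z

/-- the matrix of reduced polynomials -/
noncomputable def Bm {m : ℕ} (E : ℕ) (r : Fin m → Fin m → ℕ → ℝ) (n : ℕ) :
    Matrix (Fin m) (Fin m) ℝ := Matrix.of fun i j =>
  if i = j then 1 else if j < i then 0 else ∑ k ∈ Finset.range (E + 1), (n.choose k : ℝ) * r i j k

lemma Bm_uni {m : ℕ} (E : ℕ) (r : Fin m → Fin m → ℕ → ℝ) (n : ℕ) : Uni (Bm E r n) := by
  constructor
  · intro i
    unfold Bm
    simp
  · intro i j h
    unfold Bm
    simp only [Matrix.of_apply]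
    rw [if_neg (ne_of_gt h), if_pos h]

/-- reduction of a polynomial sequence -/
theorem reduce {m D q : ℕ} (hq : 1 ≤ q) (A : ℕ → Matrix (Fin m) (Fin m) ℝ) (hA : ∀ n, Uni (A n))
    (hP : ∀ i j, PF D (fun n => A n i j)) :
    ∃ r : Fin m → Fin m → ℕ → ℝ, (∀ i j k, 0 ≤ r i j k ∧ r i j k ≤ q) ∧
      ∀ n, ∃ γ, Lat q γ ∧ A n * γ = Bm (m * D) r n := by
  classical
  set A' : Fin m → Fin m → (ℕ → ℝ) := fun i j n => A n i j with hA'
  have h1 : ∀ i, A' i i = 1 := fun i => funext fun n => (hA n).1 i
  have h0 : ∀ i k, k < i → A' i k = 0 := fun i k h => funext fun n => (hA n).2 i k h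
  set x := xs A' (flp q) with hx
  -- degrees
  have hdeg : ∀ (t : ℕ) (j i : Fin m), m - i.val ≤ t → PF (t * D) (x j i) := by
    intro t
    induction t with
    | zero =>
      intro j i hi
      have := i.2
      omega
    | succ t ih =>
      intro j i hi
      rcases lt_trichotomy i j with h | h | h
      · rw [hx, xs_lt A' (flp q) h]
        refine flp_PF ?_
        unfold ss
        have : ∀ k ∈ Finset.Ioi i, PF ((t + 1) * D) (A' i k * xs A' (flp q) j k) := by
          intro k hk
          have hk' := Finset.mem_Ioi.1 hk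
          have h2 : PF (t * D) (x j k) := ih j k (by
            have : i.val < k.val := hk'
            omega)
          have h3 := (hP i k).mul h2
          refine PF.mono h3 ?_
          rw [add_mul, one_mul, add_comm]
        have h4 := PF.sum (Finset.Ioi i) this
        convert h4 using 1
        funext n
        rw [Finset.sum_apply]
      · rw [h, hx, xs_self]
        exact PF.const _ 1
      · rw [hx, xs_gt A' (flp q) h]
        exact PF.const _ 0
  have hdeg' : ∀ j i : Fin m, PF (m * D) (ss A' (flp q) j i) := by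
    intro j i
    unfold ss
    have : ∀ k ∈ Finset.Ioi i, PF (m * D) (A' i k * xs A' (flp q) j k) := by
      intro k hk
      have hk0 : i < k := Finset.mem_Ioi.1 hk
      have hk' : i.val < k.val := hk0
      have hk2 := k.2
      have h2 : PF ((m - k.val) * D) (x j k) := hdeg (m - k.val) j k le_rfl
      have h3 := (hP i k).mul h2
      refine PF.mono h3 ?_
      have : 1 + (m - k.val) ≤ m := by omega
      calc D + (m - k.val) * D = (1 + (m - k.val)) * D := by ring
        _ ≤ m * D := Nat.mul_le_mul_right D this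
    have h4 := PF.sum (Finset.Ioi i) this
    convert h4 using 1
    funext n
    rw [Finset.sum_apply]
  have hr := fun i j : Fin m => flp_add hq (hdeg' j i)
  choose r hr1 hr2 using hr
  refine ⟨r, fun i j k => hr1 i j k, fun n => ⟨Matrix.of fun k j => x j k n, ⟨⟨?_, ?_⟩, ?_⟩, ?_⟩⟩
  · intro i
    simp only [Matrix.of_apply]
    rw [hx, xs_self]
    rfl
  · intro i j h
    simp only [Matrix.of_apply]
    rw [hx, xs_gt A' (flp q) h]
    rfl
  · intro i j h
    simp only [Matrix.of_apply]
    rw [hx, xs_lt A' (flp q) h]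
    exact flp_int q _ n
  · ext i j
    rw [Matrix.mul_apply]
    unfold Bm
    simp only [Matrix.of_apply]
    have e : ∑ k, A n i k * x j k n = (∑ k, A' i k * xs A' (flp q) j k) n := by
      rw [Finset.sum_apply]
      rfl
    rw [e]
    rcases lt_trichotomy i j with h | h | h
    · rw [if_neg (ne_of_lt h), if_neg (not_lt.2 h.le), prod_xs A' (flp q) h1 h0,
        xs_lt A' (flp q) h, ← hr2 i j n, add_comm]
      rfl
    · subst h
      rw [if_pos rfl, prod_xs_self A' (flp q) h1 h0]
      rfl
    · rw [if_neg (ne_of_gt h), if_pos h, prod_xs_gt A' (flp q) h1 h0 h]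
      rfl

/-- reduction of a matrix, with bounds -/
theorem reduce_static {m q : ℕ} (hq : 1 ≤ q) (B : Matrix (Fin m) (Fin m) ℝ) (hB : Uni B) {β : ℝ}
    (hβ0 : 0 ≤ β) (hβ : ∀ i j, |B i j| ≤ β) :
    ∃ γ, Lat q γ ∧ (∀ i j, |γ i j| ≤ (m * β + q + 1) ^ m) ∧ Uni (B * γ) ∧
      ∀ i j, i < j → 0 ≤ (B * γ) i j ∧ (B * γ) i j ≤ (q : ℝ) := by
  classical
  have hq0 : (0 : ℝ) < q := by exact_mod_cast hq
  set fl : ℝ → ℝ := fun s => -(q * ⌊s / q⌋) with hfl
  set A' : Fin m → Fin m → ℝ := fun i j => B i j with hA'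
  have h1 : ∀ i, A' i i = 1 := hB.1
  have h0 : ∀ i k, k < i → A' i k = 0 := hB.2
  set x := xs A' fl with hx
  set G : ℝ := m * β + q + 1 with hG
  have hG1 : 1 ≤ G := by
    have : (0 : ℝ) ≤ m * β := by positivity
    linarith
  have hflb : ∀ s, |fl s| ≤ |s| + q := by
    intro s
    have h2 := Int.floor_le (s / q)
    have h3 := (Int.lt_floor_add_one (s / q)).le
    rw [le_div_iff₀ hq0] at h2
    rw [div_le_iff₀ hq0] at h3
    rw [hfl]
    simp only
    rw [abs_neg, abs_le]
    constructor
    · nlinarith [neg_abs_le s]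
    · nlinarith [le_abs_self s]
  have hbound : ∀ (t : ℕ) (j i : Fin m), m - i.val ≤ t → |x j i| ≤ G ^ t := by
    intro t
    induction t with
    | zero =>
      intro j i hi
      have := i.2
      omega
    | succ t ih =>
      intro j i hi
      have hGt : 1 ≤ G ^ t := one_le_pow₀ hG1
      rcases lt_trichotomy i j with h | h | h
      · rw [hx, xs_lt A' fl h]
        refine (hflb _).trans ?_
        have h2 : |ss A' fl j i| ≤ m * β * G ^ t := by
          unfold ss
          refine (Finset.abs_sum_le_sum_abs _ _).trans ?_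
          calc ∑ k ∈ Finset.Ioi i, |A' i k * xs A' fl j k|
              ≤ ∑ _k ∈ Finset.Ioi i, β * G ^ t := by
                refine Finset.sum_le_sum fun k hk => ?_
                have hk0 : i < k := Finset.mem_Ioi.1 hk
                have hk' : i.val < k.val := hk0
                rw [abs_mul]
                exact mul_le_mul (hβ i k) (ih j k (by omega)) (abs_nonneg _) hβ0
            _ = (Finset.Ioi i).card * (β * G ^ t) := by rw [Finset.sum_const, nsmul_eq_mul]
            _ ≤ m * (β * G ^ t) := by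
                refine mul_le_mul_of_nonneg_right ?_ (by positivity)
                have : (Finset.Ioi i).card ≤ m := by
                  refine (Finset.card_le_univ _).trans ?_
                  simp
                exact_mod_cast this
            _ = _ := by ring
        rw [pow_succ]
        have h3 : (q : ℝ) ≤ q * G ^ t := le_mul_of_one_le_right hq0.le hGt
        have h4 : G ^ t * G = m * β * G ^ t + q * G ^ t + G ^ t := by
          conv_lhs => rw [hG]
          ring
        rw [h4]
        linarith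
      · rw [h, hx, xs_self, abs_one]
        exact one_le_pow₀ hG1
      · rw [hx, xs_gt A' fl h, abs_zero]
        positivity
  have hmul : ∀ i j, (B * Matrix.of fun k j => x j k) i j = ∑ k, A' i k * xs A' fl j k := by
    intro i j
    rw [Matrix.mul_apply]
    rfl
  refine ⟨Matrix.of fun k j => x j k, ⟨⟨?_, ?_⟩, ?_⟩, ?_, ⟨?_, ?_⟩, ?_⟩
  · intro i
    simp only [Matrix.of_apply]
    rw [hx, xs_self]
  · intro i j h
    simp only [Matrix.of_apply]
    rw [hx, xs_gt A' fl h]
  · intro i j h
    simp only [Matrix.of_apply]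
    rw [hx, xs_lt A' fl h, hfl]
    refine ⟨-⌊ss A' fl j i / q⌋, ?_⟩
    push_cast
    ring
  · intro i j
    simp only [Matrix.of_apply]
    exact hbound m j i (by omega)
  · intro i
    rw [hmul, prod_xs_self A' fl h1 h0]
  · intro i j h
    rw [hmul, prod_xs_gt A' fl h1 h0 h]
  · intro i j h
    rw [hmul, prod_xs A' fl h1 h0, xs_lt A' fl h]
    have h2 := Int.floor_le (ss A' fl j i / q)
    have h3 := (Int.lt_floor_add_one (ss A' fl j i / q)).le
    rw [le_div_iff₀ hq0] at h2
    rw [div_le_iff₀ hq0] at h3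
    rw [hfl]
    simp only
    constructor <;> nlinarith

end Pool.Agent.U585.SI
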